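import Pool.Agent.H341.MA.Main
import Pool.Agent.H341.FM.Sh

/-!
# The graph of regions of the simplicial arrangement A(7,1) is mediangle

The arrangement consists of the planes `x = 0, y = 0, z = 0, x + y = 0, x + z = 0, y + z = 0, x + y + z = 0` of
`ℝ^3`. It has 32 regions, all of them simplicial cones; regions are numbered `0, ..., 31`, `sgn a` is the sign
vector of the region `a` (a number with 7 binary digits), `dst a b` is the number of planes which separate `a`
and `b`, `c6`, `c4` are the 12 hexagons and the 6 squares of regions around the lines of intersection of planes.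
-/

set_option autoImplicit false
set_option maxRecDepth 100000

namespace Pool.Agent.H341.SM

open Pool.Agent.H341.MA Pool.Agent.H341.FM

/-- sign vectors -/
def sgn (a : Fin 32) : ℕ := (26958274944665345890885752905130823144611448706546538345751963009152 >>> (7 * a.val)) % 128

/-- number of separating planes (a table) -/
def dst (a b : Fin 32) : ℕ := (105383383642823336195867640151230767433421062581166989517082790836222060274519280633440992695237799631714739599029345711819484784688278969884612570544070053999022292593186345827204352217423103028658546971768900626092084690351115326157424459393989459184155718155613791124496561008619250216042634161636463954794773785830644380249956169167212438006474160937992790992621923347273240901699293316569089721168766254408280624265749279321942125178176019072100709205144394732038620132733174420107133232236932175977018870870872033725005725750439949776610403696104164784788183410422332922182708954803062636945242609783357631266985297949322384482492552250503136044282145587399694315572145938258626745805262571085250014831303215599559307904561904529830005679579230362317480122145422658589335977077475741074194734781735401832651099334119917026472439782451783994876736393993508685761685259623614059606436504487944447703412848281611953087560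 >>> (3 * (32 * a.val + b.val))) % 8

/-- the hexagons -/
def c6 (r : Fin 12) (k : ZMod 6) : Fin 32 :=
  ⟨(2126068446148355333142037422722633339866445535942678330250917311372972856721042985509541429504006126196395040 >>> (5 * (6 * r.val + k.val))) % 32, Nat.mod_lt _ (by norm_num)⟩

/-- the squares -/
def c4 (r : Fin 6) (k : ZMod 4) : Fin 32 :=
  ⟨(1203020540653591656738640130839126113 >>> (5 * (4 * r.val + k.val))) % 32, Nat.mod_lt _ (by norm_num)⟩

/-- vertex sets of the 18 cycles -/
def msk (r : Fin 18) (v : Fin 32) : Bool := Nat.testBit (78739952040495555020784973772854002396345493436801058961490414958972278662097862030609836762916808337057828332722278120426665752224645948602004886936110998031453532362637375 >>> (32 * r.val)) v.val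

theorem d1 : ∀ a b : Fin 32, dst a b = 0 ↔ a = b := by decide +kernel
theorem d2 : ∀ a b : Fin 32, dst a b = dst b a := by decide +kernel
theorem d3 : ∀ a b c : Fin 32, dst a b = 1 → dst c b ≤ dst c a + 1 := by decide +kernel
theorem d4 : ∀ a b : Fin 32, a ≠ b → ∃ c, dst a c = 1 ∧ dst c b + 1 = dst a b := by decide +kernel
theorem d5 : ∀ a b : Fin 32, dst a b = 1 → ∀ o, dst o a ≠ dst o b := by decide +kernel
theorem s1 : ∀ r x y, c6 r x = c6 r y → x = y := by decide +kernel
theorem s2 : ∀ r x, dst (c6 r x) (c6 r (x + 1)) = 1 := by decide +kernel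
theorem s3 : ∀ r x y, dst (c6 r x) (c6 r y) = 1 → y = x + 1 ∨ x = y + 1 := by decide +kernel
theorem s4 : ∀ r x y z, dst (c6 r x) (c6 r y) = dst (c6 r x) z + dst z (c6 r y) → ∃ k, c6 r k = z := by
  decide +kernel
theorem t1 : ∀ r x y, c4 r x = c4 r y → x = y := by decide +kernel
theorem t2 : ∀ r x, dst (c4 r x) (c4 r (x + 1)) = 1 := by decide +kernel
theorem t3 : ∀ r x y, dst (c4 r x) (c4 r y) = 1 → y = x + 1 ∨ x = y + 1 := by decide +kernel
theorem t4 : ∀ r x y z, dst (c4 r x) (c4 r y) = dst (c4 r x) z + dst z (c4 r y) → ∃ k, c4 r k = z := by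
  decide +kernel
theorem f1 : ∀ z x y : Fin 32, x ≠ y → dst z x = 1 → dst z y = 1 →
    (∃ r k, c6 r k = z ∧ ((c6 r (k + 1) = x ∧ c6 r (k - 1) = y) ∨ (c6 r (k + 1) = y ∧ c6 r (k - 1) = x))) ∨
    (∃ r k, c4 r k = z ∧ ((c4 r (k + 1) = x ∧ c4 r (k - 1) = y) ∨ (c4 r (k + 1) = y ∧ c4 r (k - 1) = x))) := by
  decide +kernel
theorem f2 : ∀ r k o, dst o (c6 r (k + 1)) + 1 = dst o (c6 r k) → dst o (c6 r (k - 1)) + 1 = dst o (c6 r k) →
    dst o (c6 r (k + 1)) = dst o (c6 r (k + 3)) + dst (c6 r (k + 3)) (c6 r (k + 1)) ∧
    dst o (c6 r (k - 1)) = dst o (c6 r (k + 3)) + dst (c6 r (k + 3)) (c6 r (k - 1)) := by decide +kernel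
theorem f3 : ∀ r k o, dst o (c4 r (k + 1)) + 1 = dst o (c4 r k) → dst o (c4 r (k - 1)) + 1 = dst o (c4 r k) →
    dst o (c4 r (k + 1)) = dst o (c4 r (k + 2)) + dst (c4 r (k + 2)) (c4 r (k + 1)) ∧
    dst o (c4 r (k - 1)) = dst o (c4 r (k + 2)) + dst (c4 r (k + 2)) (c4 r (k - 1)) := by decide +kernel
theorem m6 : ∀ (r : Fin 12) (v : Fin 32), msk ⟨r.val, by omega⟩ v = true ↔ ∃ k, c6 r k = v := by decide +kernel
theorem m4 : ∀ (r : Fin 6) (v : Fin 32), msk ⟨r.val + 12, by omega⟩ v = true ↔ ∃ k, c4 r k = v := by
  decide +kernel
theorem mm : ∀ r r' : Fin 18, r = r' ∨ ∀ a, msk r a = true → msk r' a = true → ∀ b, msk r b = true →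
    msk r' b = true → b ≠ a → ∀ c, msk r c = true → msk r' c = true → c = a ∨ c = b := by decide +kernel

end Pool.Agent.H341.SM
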