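import Pool.Agent.H341.SM.A7

/-!
# The graph of regions of A(7,1): cycles, mediangle conditions, transversality
-/

set_option autoImplicit false
set_option maxRecDepth 100000

namespace Pool.Agent.H341.SM

open Pool.Agent.H341.MA Pool.Agent.H341.FM

/-- the graph of regions of the arrangement A(7,1) -/
def X7 : SimpleGraph (Fin 32) where
  Adj a b := dst a b = 1
  symm := ⟨fun a b h => by rw [d2]; exact h⟩
  loopless := ⟨fun a h => by rw [(d1 a a).2 rfl] at h; exact absurd h (by norm_num)⟩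

theorem walk7 : ∀ (n : ℕ) (a b : Fin 32), dst a b = n → ∃ p : X7.Walk a b, p.length = n := by
  intro n
  induction n with
  | zero =>
    intro a b h
    obtain rfl := (d1 a b).1 h
    exact ⟨.nil, rfl⟩
  | succ n ih =>
    intro a b h
    have hne : a ≠ b := by
      rintro rfl
      rw [(d1 a a).2 rfl] at h
      omega
    obtain ⟨c, hc1, hc2⟩ := d4 a b hne
    obtain ⟨p, hp⟩ := ih c b (by omega)
    exact ⟨.cons (show X7.Adj a c from hc1) p, by simp [hp]⟩

theorem len7 {a b : Fin 32} (p : X7.Walk a b) : dst a b ≤ p.length := by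
  induction p with
  | nil => rw [(d1 _ _).2 rfl]; exact Nat.zero_le _
  | @cons u v w h p ih =>
    have h1 : dst v u = 1 := by rw [d2]; exact h
    have h2 := d3 v u w h1
    rw [d2 w u, d2 w v] at h2
    rw [SimpleGraph.Walk.length_cons]
    omega

theorem conn7 : X7.Connected :=
  { preconnected := fun a b => by
      obtain ⟨p, -⟩ := walk7 _ a b rfl
      exact ⟨p⟩
    nonempty := ⟨0⟩ }

theorem dist7 (a b : Fin 32) : X7.dist a b = dst a b := by
  obtain ⟨p, hp⟩ := walk7 _ a b rfl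
  apply le_antisymm
  · rw [← hp]
    exact SimpleGraph.dist_le p
  · obtain ⟨q, hq⟩ := conn7.exists_walk_length_eq_dist a b
    rw [← hq]
    exact len7 q

theorem ecc_of (n l : ℕ) (hn : n = 2 * l) (hl : 2 ≤ l) [NeZero n] (f : ZMod n → Fin 32)
    (h1 : ∀ x y, f x = f y → x = y) (h2 : ∀ x, dst (f x) (f (x + 1)) = 1)
    (h3 : ∀ x y, dst (f x) (f y) = 1 → y = x + 1 ∨ x = y + 1)
    (h4 : ∀ x y z, dst (f x) (f y) = dst (f x) z + dst z (f y) → ∃ k, f k = z) :
    EvenConvexCycle X7 l (fun i : ℤ => f (i : ZMod n)) := by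
  have e : (2 * (l : ℤ)) = ((n : ℕ) : ℤ) := by rw [hn]; push_cast; ring
  refine ⟨hl, fun i j => ?_, fun i => ?_, fun i j h => ?_, fun i j z hz => ?_⟩
  · rw [e, ← ZMod.intCast_zmod_eq_zero_iff_dvd]
    push_cast
    constructor
    · intro h
      rw [h1 _ _ h, sub_self]
    · intro h
      rw [sub_eq_zero.1 h]
  · show dst (f (i : ZMod n)) (f ((i + 1 : ℤ) : ZMod n)) = 1
    push_cast
    exact h2 _
  · have h' : dst (f (i : ZMod n)) (f (j : ZMod n)) = 1 := h
    rw [e, ← ZMod.intCast_zmod_eq_zero_iff_dvd, ← ZMod.intCast_zmod_eq_zero_iff_dvd]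
    push_cast
    rcases h3 _ _ h' with h | h
    · left
      rw [h]
      ring
    · right
      rw [h]
      ring
  · have hz' : X7.dist (f (i : ZMod n)) (f (j : ZMod n)) =
        X7.dist (f (i : ZMod n)) z + X7.dist z (f (j : ZMod n)) := hz
    rw [dist7, dist7, dist7] at hz'
    obtain ⟨k, hk⟩ := h4 _ _ z hz'
    refine ⟨((k.val : ℕ) : ℤ), ?_⟩
    show f (((k.val : ℕ) : ℤ) : ZMod n) = z
    rw [Int.cast_natCast, ZMod.natCast_zmod_val, hk]

theorem C6 (r : Fin 12) : EvenConvexCycle X7 3 (fun i : ℤ => c6 r (i : ZMod 6)) :=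
  ecc_of 6 3 rfl (by norm_num) (c6 r) (s1 r) (s2 r) (s3 r) (s4 r)

theorem C4 (r : Fin 6) : EvenConvexCycle X7 2 (fun i : ℤ => c4 r (i : ZMod 4)) :=
  ecc_of 4 2 rfl (by norm_num) (c4 r) (t1 r) (t2 r) (t3 r) (t4 r)

theorem shiftc (n l : ℕ) [NeZero n] (f : ZMod n → Fin 32)
    (hC : EvenConvexCycle X7 l (fun i : ℤ => f (i : ZMod n))) (k : ZMod n) :
    EvenConvexCycle X7 l (fun i : ℤ => f (k + (i : ZMod n))) ∧
      EvenConvexCycle X7 l (fun i : ℤ => f (k - (i : ZMod n))) := by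
  have e3 : S_E3.{0} := s_e3
  have h := e3 (Fin 32) X7 l _ hC ((k.val : ℕ) : ℤ)
  have e1 : (fun i : ℤ => f (((i + ((k.val : ℕ) : ℤ) : ℤ)) : ZMod n)) = fun i : ℤ => f (k + (i : ZMod n)) := by
    funext i
    push_cast
    rw [ZMod.natCast_zmod_val, add_comm]
  have e2 : (fun i : ℤ => f (((((k.val : ℕ) : ℤ) - i : ℤ)) : ZMod n)) = fun i : ℤ => f (k - (i : ZMod n)) := by
    funext i
    push_cast
    rw [ZMod.natCast_zmod_val]
  exact ⟨e1 ▸ h.1, e2 ▸ h.2⟩

theorem rng (n : ℕ) [NeZero n] (f : ZMod n → Fin 32) (k : ZMod n) :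
    Set.range (fun i : ℤ => f (k + (i : ZMod n))) = {v | ∃ j, f j = v} ∧
      Set.range (fun i : ℤ => f (k - (i : ZMod n))) = {v | ∃ j, f j = v} := by
  constructor
  · ext v
    constructor
    · rintro ⟨i, rfl⟩
      exact ⟨_, rfl⟩
    · rintro ⟨j, rfl⟩
      refine ⟨(((j - k).val : ℕ) : ℤ), ?_⟩
      show f (k + ((((j - k).val : ℕ) : ℤ) : ZMod n)) = f j
      rw [Int.cast_natCast, ZMod.natCast_zmod_val]
      congr 1
      ring
  · ext v
    constructor
    · rintro ⟨i, rfl⟩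
      exact ⟨_, rfl⟩
    · rintro ⟨j, rfl⟩
      refine ⟨(((k - j).val : ℕ) : ℤ), ?_⟩
      show f (k - ((((k - j).val : ℕ) : ℤ) : ZMod n)) = f j
      rw [Int.cast_natCast, ZMod.natCast_zmod_val]
      congr 1
      ring

/-- the conclusion of the cycle condition, with the vertex set of the cycle -/
def Cyc (o z x y : Fin 32) : Prop :=
  ∃ (l : ℕ) (c : ℤ → Fin 32) (r : Fin 18), EvenConvexCycle X7 l c ∧ c 0 = z ∧ c 1 = x ∧ c (-1) = y ∧
    c l ∈ Itv X7 o x ∧ c l ∈ Itv X7 o y ∧ Set.range c = {v | msk r v = true}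

theorem cyc_of (n l : ℕ) [NeZero n] (f : ZMod n → Fin 32)
    (hC : EvenConvexCycle X7 l (fun i : ℤ => f (i : ZMod n))) (k : ZMod n) (r : Fin 18)
    (hr : ∀ v, msk r v = true ↔ ∃ k, f k = v) (hln : k - (l : ZMod n) = k + (l : ZMod n)) (o x y : Fin 32)
    (hxy : (f (k + 1) = x ∧ f (k - 1) = y) ∨ (f (k + 1) = y ∧ f (k - 1) = x))
    (h1 : dst o (f (k + 1)) = dst o (f (k + l)) + dst (f (k + l)) (f (k + 1)))
    (h2 : dst o (f (k - 1)) = dst o (f (k + l)) + dst (f (k + l)) (f (k - 1))) :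
    Cyc o (f k) x y := by
  have hr' : {v | ∃ k, f k = v} = {v | msk r v = true} := by
    ext v
    exact (hr v).symm
  have g1 : f (k + l) ∈ Itv X7 o (f (k + 1)) := by
    show X7.dist _ _ = X7.dist _ _ + X7.dist _ _
    rw [dist7, dist7, dist7]
    exact h1
  have g2 : f (k + l) ∈ Itv X7 o (f (k - 1)) := by
    show X7.dist _ _ = X7.dist _ _ + X7.dist _ _
    rw [dist7, dist7, dist7]
    exact h2
  rcases hxy with ⟨hx, hy⟩ | ⟨hy, hx⟩
  · refine ⟨l, _, r, (shiftc n l f hC k).1, ?_, ?_, ?_, ?_, ?_, ?_⟩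
    · simp
    · simp [hx]
    · simp [← sub_eq_add_neg, hy]
    · simpa [hx] using g1
    · simpa [hy] using g2
    · rw [(rng n f k).1, hr']
  · refine ⟨l, _, r, (shiftc n l f hC k).2, ?_, ?_, ?_, ?_, ?_, ?_⟩
    · simp
    · simp [hx]
    · simp [hy]
    · simpa [hln, hx] using g2
    · simpa [hln, hy] using g1
    · rw [(rng n f k).2, hr']

theorem cyc7 (o x y z : Fin 32) (hxy : x ≠ y) (hzx : dst z x = 1) (hzy : dst z y = 1)
    (h1 : dst o x + 1 = dst o z) (h2 : dst o y + 1 = dst o z) : Cyc o z x y := by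
  rcases f1 z x y hxy hzx hzy with ⟨r, k, rfl, h⟩ | ⟨r, k, rfl, h⟩
  · have h3 : dst o (c6 r (k + 1)) + 1 = dst o (c6 r k) ∧ dst o (c6 r (k - 1)) + 1 = dst o (c6 r k) := by
      rcases h with ⟨rfl, rfl⟩ | ⟨rfl, rfl⟩
      · exact ⟨h1, h2⟩
      · exact ⟨h2, h1⟩
    obtain ⟨h4, h5⟩ := f2 r k o h3.1 h3.2
    have h6 : ∀ k : ZMod 6, k - ((3 : ℕ) : ZMod 6) = k + ((3 : ℕ) : ZMod 6) := by decide
    exact cyc_of 6 3 (c6 r) (C6 r) k _ (m6 r) (h6 k) o x y h h4 h5
  · have h3 : dst o (c4 r (k + 1)) + 1 = dst o (c4 r k) ∧ dst o (c4 r (k - 1)) + 1 = dst o (c4 r k) := by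
      rcases h with ⟨rfl, rfl⟩ | ⟨rfl, rfl⟩
      · exact ⟨h1, h2⟩
      · exact ⟨h2, h1⟩
    obtain ⟨h4, h5⟩ := f3 r k o h3.1 h3.2
    have h6 : ∀ k : ZMod 4, k - ((2 : ℕ) : ZMod 4) = k + ((2 : ℕ) : ZMod 4) := by decide
    exact cyc_of 4 2 (c4 r) (C4 r) k _ (m4 r) (h6 k) o x y h h4 h5

/-- every even convex cycle is one of the 18 cycles -/
theorem classify (l : ℕ) (c : ℤ → Fin 32) (hc : EvenConvexCycle X7 l c) :
    ∃ r, Set.range c = {v | msk r v = true} := by
  have e1 : S_E1.{0} := s_e1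
  have e2 : S_E2.{0} := s_e2
  have hl := hc.two_le
  have hxy : c 1 ≠ c (-1) := by
    rw [Ne, hc.eq_iff]
    intro h
    have := Int.le_of_dvd (by norm_num) h
    omega
  have k1 : dst (c l) (c 1) = l - 1 := by
    rw [← dist7, SimpleGraph.dist_comm]
    have := e1 _ X7 conn7 l c hc 1 (l - 1) (by omega)
    rwa [show (1 : ℤ) + ((l - 1 : ℕ) : ℤ) = (l : ℤ) by omega] at this
  have k2 : dst (c l) (c (-1)) = l - 1 := by
    rw [← dist7]
    have h9 := e1 _ X7 conn7 l c hc l (l - 1) (by omega)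
    have h10 : c ((l : ℤ) + ((l - 1 : ℕ) : ℤ)) = c (-1) := by
      rw [hc.eq_iff]
      exact ⟨1, by omega⟩
    rwa [h10] at h9
  have k0 : dst (c l) (c 0) = l := by
    rw [← dist7, SimpleGraph.dist_comm]
    have := e1 _ X7 conn7 l c hc 0 l le_rfl
    rwa [zero_add] at this
  have a1 : dst (c 0) (c 1) = 1 := hc.adj 0
  have a2 : dst (c 0) (c (-1)) = 1 := by
    rw [d2]
    exact hc.adj (-1)
  obtain ⟨l', c', r, hc', h0, h1, hm, hI, -, hr⟩ := cyc7 (c l) (c 1) (c (-1)) (c 0) hxy a1 a2 (by omega) (by omega)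
  refine ⟨r, ?_⟩
  rw [← hr]
  obtain ⟨j, hj⟩ := hc.convex l 1 hI
  have hsub : Set.range c' ⊆ Set.range c := by
    have h3 := e2 _ X7 conn7 l' c' hc' 0
    rw [zero_add] at h3
    rw [← h3, h0, ← hj]
    exact hc.convex 0 j
  have hl' := hc'.two_le
  have hQ : ∀ k : ℕ, c' (k : ℤ) = c (k : ℤ) ∧ c' ((k : ℤ) - 1) = c ((k : ℤ) - 1) := by
    intro k
    induction k with
    | zero => exact ⟨by simpa using h0, by simpa using hm⟩
    | succ k ih =>
      obtain ⟨m, hm'⟩ := hsub ⟨((k + 1 : ℕ) : ℤ), rfl⟩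
      have hadj : X7.Adj (c k) (c m) := by
        rw [hm', ← ih.1]
        have := hc'.adj k
        rwa [show ((k : ℤ) + 1) = ((k + 1 : ℕ) : ℤ) by push_cast; ring] at this
      have e : ((k + 1 : ℕ) : ℤ) - 1 = (k : ℤ) := by push_cast; ring
      refine ⟨?_, by rw [e]; exact ih.1⟩
      rw [← hm']
      rcases hc.induced k m hadj with h | h
      · rw [hc.eq_iff]
        have : m - ((k + 1 : ℕ) : ℤ) = m - k - 1 := by push_cast; ring
        rw [this]
        exact h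
      · exfalso
        have h4 : c m = c ((k : ℤ) - 1) := by
          rw [hc.eq_iff]
          have : m - ((k : ℤ) - 1) = -((k : ℤ) - m - 1) := by ring
          rw [this]
          exact h.neg_right
        rw [hm', ← ih.2, hc'.eq_iff] at h4
        have h5 : ((k + 1 : ℕ) : ℤ) - ((k : ℤ) - 1) = 2 := by push_cast; ring
        rw [h5] at h4
        have := Int.le_of_dvd (by norm_num) h4
        omega
  apply Set.Subset.antisymm _ hsub
  rintro _ ⟨j, rfl⟩
  have h6 : c j = c (((j + 2 * (l : ℤ) * |j|).toNat : ℕ) : ℤ) := by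
    rw [hc.eq_iff]
    have h7 : 0 ≤ j + 2 * (l : ℤ) * |j| := by
      have h8 : |j| ≤ 2 * (l : ℤ) * |j| := by
        have : (1 : ℤ) ≤ 2 * l := by omega
        nlinarith [abs_nonneg j]
      have := neg_abs_le j
      omega
    rw [Int.toNat_of_nonneg h7]
    exact ⟨-|j|, by ring⟩
  rw [h6, ← (hQ _).1]
  exact ⟨_, rfl⟩

theorem mediangle7 : Mediangle X7 where
  connected := conn7
  triangle o x y h hxy := by
    rw [dist7, dist7] at h
    exact absurd h (d5 x y hxy o)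
  no_k4minus x y z w hxy hxz hyz _ _ _ := by
    have h1 : dst z x = 1 := by rw [d2]; exact hxz
    have h2 : dst z y = 1 := by rw [d2]; exact hyz
    exact absurd (h1.trans h2.symm) (d5 x y hxy z)
  cycle o x y z hxy hzx hzy h1 h2 := by
    rw [dist7, dist7] at h1 h2
    obtain ⟨l, c, r, g1, g2, g3, g4, g5, g6, -⟩ := cyc7 o x y z hxy hzx hzy h1 h2
    exact ⟨l, c, g1, g2, g3, g4, g5, g6⟩
  share l l' c c' hc hc' i j i' j' h1 h2 hne := by
    obtain ⟨r, hr⟩ := classify l c hc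
    obtain ⟨r', hr'⟩ := classify l' c' hc'
    rw [hr, hr']
    have hin : ∀ k : ℤ, msk r (c k) = true := fun k => by
      have : c k ∈ {v | msk r v = true} := by
        rw [← hr]
        exact ⟨k, rfl⟩
      exact this
    have hin' : ∀ k : ℤ, msk r' (c' k) = true := fun k => by
      have : c' k ∈ {v | msk r' v = true} := by
        rw [← hr']
        exact ⟨k, rfl⟩
      exact this
    have tr : ∀ k k' : ℤ, s(c k, c (k + 1)) = s(c' k', c' (k' + 1)) →
        msk r' (c k) = true ∧ msk r' (c (k + 1)) = true := by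
      intro k k' h
      rw [Sym2.eq_iff] at h
      rcases h with ⟨h3, h4⟩ | ⟨h3, h4⟩ <;> rw [h3, h4] <;> exact ⟨hin' _, hin' _⟩
    rcases mm r r' with h | h
    · rw [h]
    exfalso
    obtain ⟨p1, p2⟩ := tr i i' h1
    obtain ⟨q1, q2⟩ := tr j j' h2
    have hab : c (i + 1) ≠ c i := (hc.adj i).ne'
    have hcd : c (j + 1) ≠ c j := (hc.adj j).ne'
    have t := h (c i) (hin _) p1 (c (i + 1)) (hin _) p2 hab
    have t1 := t (c j) (hin _) q1
    have t2 := t (c (j + 1)) (hin _) q2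
    apply hne
    rw [Sym2.eq_iff]
    rcases t1 with t1 | t1 <;> rcases t2 with t2 | t2
    · exact absurd (t2.trans t1.symm) hcd
    · exact Or.inl ⟨t1.symm, t2.symm⟩
    · exact Or.inr ⟨t2.symm, t1.symm⟩
    · exact absurd (t2.trans t1.symm) hcd

/-! ## Coordinates and transversality -/

/-- the sides of the 7 planes -/
def co7 (v : Fin 32) (h : Fin 7) : Bool := Nat.testBit (sgn v) h.val

theorem h1 : ∀ u v : Fin 32, (Finset.univ.filter fun h => co7 u h ≠ co7 v h).card = dst u v := by decide +kernel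
theorem h2 : ∀ x y : Fin 32, dst x y = 1 → ∀ g h : Fin 7, co7 x g ≠ co7 y g → h ≠ g → co7 x h = co7 y h := by
  decide +kernel
theorem h3 : ∀ x y : Fin 32, dst x y = 1 → ∃ g : Fin 7, co7 x g ≠ co7 y g := by decide +kernel
theorem h4 : ∀ d e : Fin 7, d ≠ e →
    (∃ r k, co7 (c6 r k) d ≠ co7 (c6 r (k + 1)) d ∧ co7 (c6 r (k + 1)) e ≠ co7 (c6 r (k + 2)) e) ∨
    (∃ r k, co7 (c6 r k) e ≠ co7 (c6 r (k + 1)) e ∧ co7 (c6 r (k + 1)) d ≠ co7 (c6 r (k + 2)) d) ∨
    (∃ r k, co7 (c4 r k) d ≠ co7 (c4 r (k + 1)) d ∧ co7 (c4 r (k + 1)) e ≠ co7 (c4 r (k + 2)) e) := by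
  decide +kernel

theorem ham7 : Ham X7 co7 where
  fin u v := Set.toFinite _
  card u v := by
    rw [dist7, ← h1, Set.ncard_eq_toFinset_card']
    congr 1
    ext h
    simp
  proj x y p hxy g hg := by
    by_cases h : co7 p g = co7 x g
    · exact ⟨x, h.symm, fun _ _ => rfl⟩
    · refine ⟨y, ?_, fun k hk => (h2 x y hxy g k hg hk).symm⟩
      revert h hg
      cases co7 p g <;> cases co7 x g <;> cases co7 y g <;> simp

end Pool.Agent.H341.SM
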