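import Pool.Agent.H341.MA.Main
import Pool.Graph.R_seed8.Helper741.Matsumoto

/-!
# Convex subgraphs of products of complete graphs and finite Coxeter graphs: a local obstruction
-/

set_option autoImplicit false

namespace Pool.Agent.H341.SM

open Pool.Agent.Helper741

universe u v

/-- a complete graph, or the Cayley graph of a finite Coxeter group with respect to its standard
Coxeter generators -/
def IsFactor {W : Type v} (Γ : SimpleGraph W) : Prop :=
  Γ = ⊤ ∨ ∃ (n : ℕ) (M : CoxeterMatrix (Fin n)) (_ : Group W) (cs : CoxeterSystem M W),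
    Finite W ∧ ∀ a b : W, Γ.Adj a b ↔ ∃ i, b = a * cs.simple i

/-- the Cartesian product of a family of graphs -/
def prodGraph {ι : Type u} {W : ι → Type v} (Γ : ∀ i, SimpleGraph (W i)) : SimpleGraph (∀ i, W i) where
  Adj x y := ∃ i, (Γ i).Adj (x i) (y i) ∧ ∀ j, j ≠ i → x j = y j
  symm := ⟨fun _ _ ⟨i, h1, h2⟩ => ⟨i, h1.symm, fun j hj => (h2 j hj).symm⟩⟩
  loopless := ⟨fun _ ⟨_, h1, _⟩ => h1.ne rfl⟩

/-- a set of vertices which contains with two vertices all shortest paths between them -/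
def ConvexSet {P : Type*} (G : SimpleGraph P) (Y : Set P) : Prop :=
  ∀ x ∈ Y, ∀ y ∈ Y, ∀ p : G.Walk x y, p.length = G.dist x y → ∀ z ∈ p.support, z ∈ Y

section cox

variable {n : ℕ} {M : CoxeterMatrix (Fin n)} {W : Type v} [Group W] (cs : CoxeterSystem M W)

lemma len_two {a b : Fin n} (h : cs.simple a ≠ cs.simple b) :
    cs.length (cs.simple a * cs.simple b) = 2 := by
  rcases cs.length_mul_simple (cs.simple a) b with h1 | h1
  · rw [h1, cs.length_simple]
  · rw [cs.length_simple] at h1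
    have h2 : cs.length (cs.simple a * cs.simple b) = 0 := by omega
    rw [cs.length_eq_zero_iff] at h2
    exact absurd (by rw [← cs.inv_simple b]; exact eq_inv_of_mul_eq_one_left h2) h

lemma c1 {a b c d : Fin n} (h : cs.simple a * cs.simple b = cs.simple c * cs.simple d)
    (hab : cs.simple a ≠ cs.simple b) (hac : cs.simple a ≠ cs.simple c) :
    cs.simple b = cs.simple c ∧ cs.simple d = cs.simple a := by
  have hne : a ≠ c := fun e => hac (by rw [e])
  have hM : M a c = 0 ∨ 2 ≤ M a c := by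
    have := M.off_diagonal a c hne
    omega
  have hM' : M c a = 0 ∨ 2 ≤ M c a := by
    have := M.off_diagonal c a hne.symm
    omega
  obtain ⟨w, hw⟩ : ∃ w, w = cs.simple a * cs.simple b := ⟨_, rfl⟩
  have hl : cs.length w = 2 := by rw [hw]; exact len_two cs hab
  have h1 : cs.length (cs.simple a * w) < cs.length w := by
    rw [hl, hw, ← mul_assoc, cs.simple_mul_simple_self, one_mul, cs.length_simple]; omega
  have h2 : cs.length (cs.simple c * w) < cs.length w := by
    rw [hl, hw, h, ← mul_assoc, cs.simple_mul_simple_self, one_mul, cs.length_simple]; omega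
  have key : ∀ x y : Fin n, x ≠ y → (M x y = 0 ∨ 2 ≤ M x y) → cs.length (cs.simple x * w) < cs.length w →
      cs.length (cs.simple y * w) < cs.length w → w = cs.simple x * cs.simple y := by
    intro x y hxy hM h1 h2
    obtain ⟨u, hu1, hu2⟩ := exists_aw_front cs w 2 x y hxy hM h1 h2
    have h3 : cs.length (cs.wordProd (aw x y 2 ++ u)) = (aw x y 2 ++ u).length := hu1
    rw [hu2, hl, List.length_append, aw_length] at h3
    have h4 : u = [] := List.length_eq_zero_iff.1 (by omega)
    subst h4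
    rw [← hu2]
    simp [aw, cs.wordProd_cons]
  have k1 := key a c hne hM h1 h2
  have k2 := key c a hne.symm hM' h2 h1
  constructor
  · rw [hw] at k1
    exact mul_left_cancel k1
  · rw [hw, h] at k2
    exact mul_left_cancel k2

lemma c2 {a b c d e f : Fin n}
    (h : cs.simple a * cs.simple b * cs.simple c = cs.simple f * cs.simple e * cs.simple d)
    (hl : cs.length (cs.simple a * cs.simple b * cs.simple c) = 3)
    (haf : cs.simple a * cs.simple f ≠ cs.simple f * cs.simple a) :
    cs.simple c = cs.simple a := by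
  have hne : a ≠ f := fun e => haf (by rw [e])
  have hM : M a f = 0 ∨ 3 ≤ M a f := by
    have h1 := M.off_diagonal a f hne
    have h2 : M a f ≠ 2 := by
      intro h2
      have h3 := cs.simple_mul_simple_pow a f
      rw [h2, pow_two] at h3
      apply haf
      have h4 : cs.simple a * cs.simple f = (cs.simple a * cs.simple f)⁻¹ := eq_inv_of_mul_eq_one_left h3
      rw [h4, mul_inv_rev, cs.inv_simple, cs.inv_simple]
    omega
  obtain ⟨w, hw⟩ : ∃ w, w = cs.simple a * cs.simple b * cs.simple c := ⟨_, rfl⟩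
  rw [← hw] at hl
  have hle : ∀ x y : Fin n, cs.length (cs.simple x * cs.simple y) ≤ 2 := by
    intro x y
    have := cs.length_mul_le (cs.simple x) (cs.simple y)
    rw [cs.length_simple, cs.length_simple] at this
    exact this
  have h1 : cs.length (cs.simple a * w) < cs.length w := by
    rw [hl, hw, mul_assoc, ← mul_assoc (cs.simple a) (cs.simple a), cs.simple_mul_simple_self, one_mul]
    have := hle b c
    omega
  have h2 : cs.length (cs.simple f * w) < cs.length w := by
    rw [hl, hw, h, mul_assoc, ← mul_assoc (cs.simple f) (cs.simple f), cs.simple_mul_simple_self, one_mul]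
    have := hle e d
    omega
  obtain ⟨u, hu1, hu2⟩ := exists_aw_front cs w 3 a f hne hM h1 h2
  have h3 : cs.length (cs.wordProd (aw a f 3 ++ u)) = (aw a f 3 ++ u).length := hu1
  rw [hu2, hl, List.length_append, aw_length] at h3
  have h4 : u = [] := List.length_eq_zero_iff.1 (by omega)
  subst h4
  have h5 : w = cs.simple a * (cs.simple f * cs.simple a) := by
    rw [← hu2]
    simp [aw, cs.wordProd_cons]
  rw [hw, mul_assoc] at h5
  have h6 := mul_left_cancel h5
  by_cases hbf : cs.simple b = cs.simple f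
  · rw [hbf] at h6
    exact mul_left_cancel h6
  · exfalso
    have hbc : cs.simple b ≠ cs.simple c := by
      intro hbc
      rw [hw, mul_assoc, hbc, cs.simple_mul_simple_self, mul_one, cs.length_simple] at hl
      omega
    obtain ⟨-, h7⟩ := c1 cs h6 hbc hbf
    rw [hw, h7, cs.simple_mul_simple_self, one_mul, cs.length_simple] at hl
    omega

end cox

section graph

/-- `φ` is an isomorphism of `X` onto a convex subgraph of the product -/
structure Emb {ι : Type u} {W : ι → Type v} (Γ : ∀ i, SimpleGraph (W i)) {V : Type} (X : SimpleGraph V)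
    (φ : V → ∀ i, W i) : Prop where
  inj : Function.Injective φ
  adj : ∀ a b, X.Adj a b ↔ (prodGraph Γ).Adj (φ a) (φ b)
  conv : ConvexSet (prodGraph Γ) (Set.range φ)

/-- two neighbours `b`, `c` of `a`, not adjacent, with no other common neighbour -/
def N {V : Type} (X : SimpleGraph V) (a b c : V) : Prop :=
  X.Adj a b ∧ X.Adj a c ∧ b ≠ c ∧ ¬ X.Adj b c ∧ ∀ d, X.Adj b d → X.Adj d c → d = a

lemma N.symm {V : Type} {X : SimpleGraph V} {a b c : V} (h : N X a b c) : N X a c b :=
  ⟨h.2.1, h.1, h.2.2.1.symm, fun h' => h.2.2.2.1 h'.symm, fun d h1 h2 => h.2.2.2.2 d h2.symm h1.symm⟩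

variable {ι : Type u} {W : ι → Type v} {Γ : ∀ i, SimpleGraph (W i)} {V : Type} {X : SimpleGraph V}
  {φ : V → ∀ i, W i}

lemma mid (h : Emb Γ X φ) {b c : V} {q : ∀ i, W i} (h1 : (prodGraph Γ).Adj (φ b) q)
    (h2 : (prodGraph Γ).Adj q (φ c)) (hbc : b ≠ c) (hn : ¬ X.Adj b c) :
    ∃ d, φ d = q ∧ X.Adj b d ∧ X.Adj d c := by
  obtain ⟨p, hp, hq⟩ : ∃ p : (prodGraph Γ).Walk (φ b) (φ c), p.length = 2 ∧ q ∈ p.support :=
    ⟨.cons h1 (.cons h2 .nil), rfl, by simp⟩
  have hd : (prodGraph Γ).dist (φ b) (φ c) = 2 := by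
    have hle := SimpleGraph.dist_le p
    have hreach : (prodGraph Γ).Reachable (φ b) (φ c) := ⟨p⟩
    have h0 : (prodGraph Γ).dist (φ b) (φ c) ≠ 0 := fun e => hbc (h.inj (hreach.dist_eq_zero_iff.1 e))
    have h1' : (prodGraph Γ).dist (φ b) (φ c) ≠ 1 := by
      intro e
      exact hn ((h.adj _ _).2 (SimpleGraph.dist_eq_one_iff_adj.1 e))
    omega
  obtain ⟨d, hd⟩ := h.conv (φ b) ⟨b, rfl⟩ (φ c) ⟨c, rfl⟩ p (by rw [hp, hd]) q hq
  subst hd
  exact ⟨d, rfl, (h.adj _ _).2 h1, (h.adj _ _).2 h2⟩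

/-- `a` and `b` have the same coordinates except perhaps the coordinate `i` -/
def Off (φ : V → ∀ i, W i) (i : ι) (a b : V) : Prop := ∀ j, j ≠ i → φ a j = φ b j

lemma Off.symm {i : ι} {a b : V} (h : Off φ i a b) : Off φ i b a := fun j hj => (h j hj).symm

lemma Off.trans {i : ι} {a b c : V} (h : Off φ i a b) (h' : Off φ i b c) : Off φ i a c :=
  fun j hj => (h j hj).trans (h' j hj)

lemma Off.ne (h : Emb Γ X φ) {i : ι} {a b : V} (ho : Off φ i a b) (hab : a ≠ b) : φ a i ≠ φ b i := by
  intro e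
  apply hab
  apply h.inj
  funext j
  by_cases hj : j = i
  · subst hj
    exact e
  · exact ho j hj

lemma off_adj (h : Emb Γ X φ) {i : ι} {a b : V} (ho : Off φ i a b) :
    X.Adj a b ↔ (Γ i).Adj (φ a i) (φ b i) := by
  rw [h.adj]
  constructor
  · rintro ⟨k, h1, h2⟩
    by_cases hk : k = i
    · subst hk
      exact h1
    · exact absurd (ho k hk) h1.ne
  · intro h1
    exact ⟨i, h1, ho⟩

lemma l0 (h : Emb Γ X φ) {a b c : V} (hN : N X a b c) {i : ι} (hi : Off φ i a b) : Off φ i a c := by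
  classical
  obtain ⟨hab, hac, hbc, hn, hu⟩ := hN
  obtain ⟨k, hk1, hk2⟩ := (h.adj _ _).1 hac
  by_cases hk : k = i
  · subst hk
    exact hk2
  exfalso
  have hbi : (Γ i).Adj (φ a i) (φ b i) := (off_adj h hi).1 hab
  have h1 : (prodGraph Γ).Adj (φ b) (Function.update (φ b) k (φ c k)) := by
    refine ⟨k, ?_, fun j hj => by rw [Function.update_of_ne hj]⟩
    rw [Function.update_self, ← hi k hk]
    exact hk1
  have h2 : (prodGraph Γ).Adj (Function.update (φ b) k (φ c k)) (φ c) := by
    refine ⟨i, ?_, fun j hj => ?_⟩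
    · rw [Function.update_of_ne (Ne.symm hk), ← hk2 i (Ne.symm hk)]
      exact hbi.symm
    · by_cases hjk : j = k
      · subst hjk
        rw [Function.update_self]
      · rw [Function.update_of_ne hjk, ← hi j hj, hk2 j hjk]
  obtain ⟨d, hd1, hd2, hd3⟩ := mid h h1 h2 hbc hn
  have hda := hu d hd2 hd3
  subst hda
  have := congrFun hd1 k
  rw [Function.update_self] at this
  exact hk1.ne this

lemma noncomm (h : Emb Γ X φ) {a b c : V} (hN : N X a b c) {i : ι} (hab : Off φ i a b)
    (hac : Off φ i a c) [Group (W i)] {n : ℕ} {M : CoxeterMatrix (Fin n)} (cs : CoxeterSystem M (W i))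
    (hcs : ∀ a b, (Γ i).Adj a b ↔ ∃ s, b = a * cs.simple s) {s t : Fin n}
    (hs : φ b i = φ a i * cs.simple s) (ht : φ c i = φ a i * cs.simple t) :
    cs.simple s * cs.simple t ≠ cs.simple t * cs.simple s := by
  classical
  intro hst
  obtain ⟨-, -, hbc, hn, hu⟩ := hN
  have h1 : (prodGraph Γ).Adj (φ b) (Function.update (φ a) i (φ a i * cs.simple s * cs.simple t)) := by
    refine ⟨i, ?_, fun j hj => by rw [Function.update_of_ne hj, hab j hj]⟩
    rw [Function.update_self, hcs]
    exact ⟨t, by rw [hs]⟩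
  have h2 : (prodGraph Γ).Adj (Function.update (φ a) i (φ a i * cs.simple s * cs.simple t)) (φ c) := by
    refine ⟨i, ?_, fun j hj => by rw [Function.update_of_ne hj, hac j hj]⟩
    rw [Function.update_self, hcs]
    refine ⟨s, ?_⟩
    rw [ht, mul_assoc (φ a i), hst, ← mul_assoc (φ a i), mul_assoc _ (cs.simple s),
      cs.simple_mul_simple_self, mul_one]
  obtain ⟨d, hd1, hd2, hd3⟩ := mid h h1 h2 hbc hn
  have hda := hu d hd2 hd3
  subst hda
  have h3 := congrFun hd1 i
  rw [Function.update_self, mul_assoc] at h3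
  have h4 : cs.simple s * cs.simple t = 1 := by
    have h5 : φ d i * 1 = φ d i * (cs.simple s * cs.simple t) := by rw [mul_one]; exact h3
    exact (mul_left_cancel h5).symm
  have h5 : cs.simple s = cs.simple t := by
    rw [← cs.inv_simple t]
    exact eq_inv_of_mul_eq_one_left h4
  apply hbc
  apply h.inj
  funext j
  by_cases hj : j = i
  · subst hj
    rw [hs, ht, h5]
  · rw [← hab j hj, ← hac j hj]

lemma hexa {W : Type v} [Group W] {n : ℕ} {M : CoxeterMatrix (Fin n)} (cs : CoxeterSystem M W)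
    {g0 g1 g2 g3 g4 g5 : W} {s0 s1 s2 s3 s4 s5 : Fin n} (e0 : g1 = g0 * cs.simple s0)
    (e1 : g2 = g1 * cs.simple s1) (e2 : g3 = g2 * cs.simple s2) (e3 : g3 = g4 * cs.simple s3)
    (e4 : g4 = g5 * cs.simple s4) (e5 : g5 = g0 * cs.simple s5) (h02 : g0 ≠ g2)
    (h03 : ¬ ∃ i, g3 = g0 * cs.simple i)
    (hc : cs.simple s0 * cs.simple s5 ≠ cs.simple s5 * cs.simple s0) : cs.simple s2 = cs.simple s0 := by
  have h01 : cs.simple s0 ≠ cs.simple s1 := by
    intro h
    apply h02
    rw [e1, e0, h, mul_assoc, cs.simple_mul_simple_self, mul_one]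
  have h1 : g3 = g0 * (cs.simple s0 * cs.simple s1 * cs.simple s2) := by
    rw [e2, e1, e0]
    simp only [mul_assoc]
  have h2 : g3 = g0 * (cs.simple s5 * cs.simple s4 * cs.simple s3) := by
    rw [e3, e4, e5]
    simp only [mul_assoc]
  have h3 : cs.simple s0 * cs.simple s1 * cs.simple s2 = cs.simple s5 * cs.simple s4 * cs.simple s3 :=
    mul_left_cancel (h1.symm.trans h2)
  refine c2 cs h3 ?_ hc
  rcases cs.length_mul_simple (cs.simple s0 * cs.simple s1) s2 with h4 | h4
  · rw [h4, len_two cs h01]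
  · exfalso
    rw [len_two cs h01] at h4
    have h5 : cs.length (cs.simple s0 * cs.simple s1 * cs.simple s2) = 1 := by omega
    rw [cs.length_eq_one_iff] at h5
    obtain ⟨i, hi⟩ := h5
    exact h03 ⟨i, by rw [h1, hi]⟩

/-- The local configuration which does not occur in convex subgraphs of products of complete graphs and
Coxeter graphs: two hexagons with a common edge `z z1`, whose other edges at `z` lie in a convex cycle
which is not a square, and whose other edges at `z1` lie in a square. -/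
theorem no_emb (hΓ : ∀ i, IsFactor (Γ i)) (h : Emb Γ X φ) (z z1 x2 x3 y2 y3 q u1 u2 v1 v2 : V)
    (n1 : N X z x2 z1) (n2 : N X z1 z y2) (n3 : N X y2 z1 u1) (n4 : N X u1 y2 u2) (n5 : N X u2 u1 x2)
    (n6 : N X x2 z u2) (n7 : ¬ X.Adj x2 y2)
    (m1 : N X z x3 z1) (m2 : N X z1 z y3) (m3 : N X y3 z1 v1) (m4 : N X v1 y3 v2) (m5 : N X v2 v1 x3)
    (m6 : N X x3 z v2) (m7 : ¬ X.Adj x3 y3)
    (n0 : N X z x2 x3) (hq1 : X.Adj y2 q) (hq2 : X.Adj q y3) (hq3 : q ≠ z1) (hy : y2 ≠ y3) : False := by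
  obtain ⟨i, -, ho⟩ := (h.adj _ _).1 n1.2.1
  have o1 : Off φ i z z1 := ho
  have ox2 : Off φ i z x2 := l0 h n1.symm o1
  have ox3 : Off φ i z x3 := l0 h m1.symm o1
  have oy2 : Off φ i z1 y2 := l0 h n2 o1.symm
  have oy3 : Off φ i z1 y3 := l0 h m2 o1.symm
  have ou1 : Off φ i y2 u1 := l0 h n3 oy2.symm
  have ou2 : Off φ i u1 u2 := l0 h n4 ou1.symm
  have ov1 : Off φ i y3 v1 := l0 h m3 oy3.symm
  have ov2 : Off φ i v1 v2 := l0 h m4 ov1.symm
  have ox2u2 : Off φ i x2 u2 := ((ox2.symm.trans o1).trans oy2).trans (ou1.trans ou2)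
  have ox3v2 : Off φ i x3 v2 := ((ox3.symm.trans o1).trans oy3).trans (ov1.trans ov2)
  rcases hΓ i with hT | ⟨n, M, grp, cs, hfin, hcs⟩
  · have h1 := off_adj h (ox2.symm.trans o1)
    rw [hT] at h1
    exact n1.2.2.2.1 (h1.2 (Off.ne h (ox2.symm.trans o1) n1.2.2.1))
  · have lab : ∀ {a b : V}, Off φ i a b → X.Adj a b → ∃ s, φ b i = φ a i * cs.simple s :=
      fun {a b} ho ha => (hcs _ _).1 ((off_adj h ho).1 ha)
    have nlab : ∀ {a b : V}, Off φ i a b → ¬ X.Adj a b → ¬ ∃ s, φ b i = φ a i * cs.simple s :=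
      fun {a b} ho ha hs => ha ((off_adj h ho).2 ((hcs _ _).2 hs))
    -- first hexagon x2 z z1 y2 u1 u2
    obtain ⟨s0, a0⟩ := lab ox2.symm n1.1.symm
    obtain ⟨s1, a1⟩ := lab o1 n1.2.1
    obtain ⟨s2, a2⟩ := lab oy2 n2.2.1
    obtain ⟨s3, a3⟩ := lab ou1.symm n3.2.1.symm
    obtain ⟨s4, a4⟩ := lab ou2.symm n4.2.1.symm
    obtain ⟨s5, a5⟩ := lab ox2u2 n6.2.1
    have k2 : cs.simple s2 = cs.simple s0 := by
      refine hexa cs a0 a1 a2 a3 a4 a5 ?_ ?_ ?_
      · exact Off.ne h (ox2.symm.trans o1) n1.2.2.1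
      · exact nlab ((ox2.symm.trans o1).trans oy2) n7
      · exact noncomm h n6 ox2.symm ox2u2 cs hcs a0 a5
    -- second hexagon x3 z z1 y3 v1 v2
    obtain ⟨t0, b0⟩ := lab ox3.symm m1.1.symm
    obtain ⟨t1, b1⟩ := lab o1 m1.2.1
    obtain ⟨t2, b2⟩ := lab oy3 m2.2.1
    obtain ⟨t3, b3⟩ := lab ov1.symm m3.2.1.symm
    obtain ⟨t4, b4⟩ := lab ov2.symm m4.2.1.symm
    obtain ⟨t5, b5⟩ := lab ox3v2 m6.2.1
    have k3 : cs.simple t2 = cs.simple t0 := by
      refine hexa cs b0 b1 b2 b3 b4 b5 ?_ ?_ ?_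
      · exact Off.ne h (ox3.symm.trans o1) m1.2.2.1
      · exact nlab ((ox3.symm.trans o1).trans oy3) m7
      · exact noncomm h m6 ox3.symm ox3v2 cs hcs b0 b5
    have c0 : φ x2 i = φ z i * cs.simple s0 := by
      rw [a0, mul_assoc, cs.simple_mul_simple_self, mul_one]
    have d0 : φ x3 i = φ z i * cs.simple t0 := by
      rw [b0, mul_assoc, cs.simple_mul_simple_self, mul_one]
    have hnc := noncomm h n0 ox2 ox3 cs hcs c0 d0
    -- the square
    have oyy : Off φ i y2 y3 := oy2.symm.trans oy3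
    obtain ⟨j, hj1, hj2⟩ := (h.adj _ _).1 hq1
    obtain ⟨k, hk1, hk2⟩ := (h.adj _ _).1 hq2
    have hji : j = i := by
      by_contra hji
      have hjk : j = k := by
        by_contra hjk
        have h1 := hk2 j hjk
        rw [← oyy j hji] at h1
        exact hj1.ne h1.symm
      subst hjk
      have h1 := hj2 i (Ne.symm hji)
      have h2 := hk2 i (Ne.symm hji)
      exact Off.ne h oyy hy (h1.trans h2)
    subst hji
    have oq : Off φ j y2 q := hj2
    obtain ⟨r, er⟩ := lab oq hq1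
    obtain ⟨r', er'⟩ := lab (oq.symm.trans oyy) hq2
    have f1 : cs.simple s2 * cs.simple r = cs.simple t2 * cs.simple r' := by
      have f2 : φ z1 j * (cs.simple s2 * cs.simple r) = φ z1 j * (cs.simple t2 * cs.simple r') := by
        rw [← mul_assoc, ← mul_assoc, ← a2, ← b2, ← er, er', mul_assoc, cs.simple_mul_simple_self, mul_one]
      exact mul_left_cancel f2
    have f3 : cs.simple s2 ≠ cs.simple r := by
      intro e
      apply hq3
      apply h.inj
      funext l
      by_cases hl : l = j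
      · subst hl
        rw [er, a2, e, mul_assoc, cs.simple_mul_simple_self, mul_one]
      · rw [← oq l hl, oy2 l hl]
    have f4 : cs.simple s2 ≠ cs.simple t2 := by
      intro e
      apply hnc
      rw [← k2, ← k3, e]
    obtain ⟨f5, f6⟩ := c1 cs f1 f3 f4
    apply hnc
    rw [← k2, ← k3]
    rw [f5, f6] at f1
    exact f1

end graph

end Pool.Agent.H341.SM
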